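import Pool.Agent.Helper53.PT.GoalsD
import Pool.Agent.Helper8.PT.SIG

/-!
# MP_705522_gt, `q ∈ (2,4)`: tail of the kernel test (`GKT`)
-/

set_option autoImplicit false

namespace Pool.Agent.Helper95.PT

open MeasureTheory Set Filter Topology
open Pool.Agent.Helper53.PT

theorem frc_eq {α : Type} (n : ℕ) (f : ℕ → α) : N.frc n f = f n := by
  cases n <;> rfl

theorem shr_le (x k : ℕ) : ((Nat.shiftRight x k : ℕ) : ℝ) ≤ (x : ℝ) / 2 ^ k := by
  have h : Nat.shiftRight x k = x / 2 ^ k := Nat.shiftRight_eq_div_pow x k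
  rw [h]
  have := Nat.cast_div_le (α := ℝ) (m := x) (n := 2 ^ k)
  push_cast at this
  exact this

theorem le_succ_div (x y : ℕ) (hy : 0 < y) : (x : ℝ) / y ≤ ((Nat.succ (Nat.div x y) : ℕ) : ℝ) := by
  have h1 : x < Nat.succ (x / y) * y := by
    have := Nat.lt_div_mul_add (a := x) hy
    rw [Nat.succ_mul]
    exact this
  have h2 : (x : ℝ) < ((Nat.succ (x / y) : ℕ) : ℝ) * y := by exact_mod_cast h1
  have hy' : (0 : ℝ) < y := by exact_mod_cast hy
  rw [div_le_iff₀ hy']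
  exact h2.le

theorem le_succ_shr (x k : ℕ) : (x : ℝ) / 2 ^ k ≤ ((Nat.succ (Nat.shiftRight x k) : ℕ) : ℝ) := by
  have h : Nat.shiftRight x k = Nat.div x (2 ^ k) := Nat.shiftRight_eq_div_pow x k
  rw [h]
  have := le_succ_div x (2 ^ k) (by positivity)
  push_cast at this ⊢
  exact this

theorem div_le (x y : ℕ) : ((Nat.div x y : ℕ) : ℝ) ≤ (x : ℝ) / y := Nat.cast_div_le

theorem shl_eq (x k : ℕ) : ((Nat.shiftLeft x k : ℕ) : ℝ) = (x : ℝ) * 2 ^ k := by
  have h : Nat.shiftLeft x k = x * 2 ^ k := Nat.shiftLeft_eq x k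
  rw [h]
  push_cast
  rfl

theorem sub_le (x y : ℕ) : (x : ℝ) - y ≤ ((Nat.sub x y : ℕ) : ℝ) := by
  have h : x ≤ (x - y) + y := by omega
  have h2 : (x : ℝ) ≤ ((x - y : ℕ) : ℝ) + y := by exact_mod_cast h
  have h3 : Nat.sub x y = x - y := rfl
  rw [h3]
  linarith

theorem mn_cases (a b : ℕ) : N.mn a b = a ∨ N.mn a b = b := by
  unfold N.mn
  cases Nat.ble a b
  · right; rfl
  · left; rfl

/-- the three possibilities for `kD` -/
theorem kD_cases (I U S a1 b1 X : ℕ) (ha : 0 < a1) :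
    ((S : ℝ) * 2 ^ 17 ≤ (N.kD I U S a1 b1 X : ℝ) * a1) ∨ N.kD I U S a1 b1 X = 4611686018427387904 ∨
    (b1 < a1 ∧ (S : ℝ) * 2 ^ 17 - (N.iV I U (N.mulL b1 X) : ℝ) ≤ (N.kD I U S a1 b1 X : ℝ) * ((a1 : ℝ) - b1)) := by
  have ha' : (0 : ℝ) < a1 := by exact_mod_cast ha
  unfold N.kD
  rcases mn_cases (Nat.succ (Nat.div (Nat.shiftLeft S 17) a1))
    (cond (Nat.ble a1 b1) 4611686018427387904
      (Nat.succ (Nat.div (Nat.sub (Nat.shiftLeft S 17) (N.iV I U (N.mulL b1 X))) (Nat.sub a1 b1)))) with h | h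
  · left
    rw [h]
    have h1 := le_succ_div (Nat.shiftLeft S 17) a1 ha
    rw [shl_eq, div_le_iff₀ ha'] at h1
    exact h1
  · right
    rw [h]
    rcases Nat.lt_or_ge b1 a1 with hlt | hge
    · right
      have hb : Nat.ble a1 b1 = false := by
        cases hc : Nat.ble a1 b1
        · rfl
        · exact absurd (Nat.le_of_ble_eq_true hc) (by omega)
      rw [hb]
      refine ⟨hlt, ?_⟩
      show _ ≤ ((Nat.succ (Nat.div (Nat.sub (Nat.shiftLeft S 17) (N.iV I U (N.mulL b1 X))) (Nat.sub a1 b1)) : ℕ) : ℝ) * _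
      have h0 : 0 < Nat.sub a1 b1 := Nat.sub_pos_of_lt hlt
      have h1 := le_succ_div (Nat.sub (Nat.shiftLeft S 17) (N.iV I U (N.mulL b1 X))) (Nat.sub a1 b1) h0
      have h0' : (0 : ℝ) < ((Nat.sub a1 b1 : ℕ) : ℝ) := by exact_mod_cast h0
      rw [div_le_iff₀ h0'] at h1
      have h2 := sub_le (Nat.shiftLeft S 17) (N.iV I U (N.mulL b1 X))
      rw [shl_eq] at h2
      have h3 : ((Nat.sub a1 b1 : ℕ) : ℝ) = (a1 : ℝ) - b1 := by
        have : Nat.sub a1 b1 = a1 - b1 := rfl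
        rw [this, Nat.cast_sub hlt.le]
      rw [h3] at h1
      linarith
    · left
      have hb : Nat.ble a1 b1 = true := Nat.ble_eq_true_of_le hge
      rw [hb]
      rfl

/-- the case of a tiny largest coordinate -/
theorem tiny (a ξ g c0 c1 S1 S2 Ra : ℝ) (ha : 1 / 2 ^ 26 ≤ a) (hξ : 0 < ξ) (h64 : 64 ≤ a * ξ ^ 2)
    (hg : 1 / 2 ≤ g) (hc0 : 0 < c0) (hgc : g ≤ -Real.log c0) (hc1 : 0 ≤ c1) (hc1' : c1 ≤ 1)
    (hS1 : S1 ≤ 256) (hS2 : S2 ≤ 256) (hS10 : 0 ≤ S1) (hS20 : 0 ≤ S2) (hRa : 200 ≤ Ra) :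
    (c1 * (64 / (a * ξ ^ 2)) ^ (g + 1) * (S1 / a) / 2 + c0 * (64 / (a * ξ ^ 2)) ^ g * (S2 / a)) *
      (c0 * (64 / (a * ξ ^ 2)) ^ g) ^ Ra * ξ ≤ 1 / 2 ^ 40 * (2 * g * (1 + Ra) - 1) := by
  have ha0 : 0 < a := lt_of_lt_of_le (by positivity) ha
  set w : ℝ := 64 / (a * ξ ^ 2) with hw
  have hw0 : 0 < w := by positivity
  have hw1 : w ≤ 1 := by
    rw [hw, div_le_one (by positivity)]
    exact h64
  have hg0 : 0 < g := by linarith
  have hE : c0 ≤ Real.exp (-g) := by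
    rw [← Real.log_le_iff_le_exp hc0]
    linarith
  have hwg : w ^ g ≤ 1 := Real.rpow_le_one hw0.le hw1 hg0.le
  have hwg1 : w ^ (g + 1) ≤ 1 := Real.rpow_le_one hw0.le hw1 (by linarith)
  have hwg0 : 0 < w ^ g := Real.rpow_pos_of_pos hw0 g
  have hwg10 : 0 < w ^ (g + 1) := Real.rpow_pos_of_pos hw0 _
  have hE1 : Real.exp (-g) ≤ 1 := Real.exp_le_one_iff.mpr (by linarith)
  have hd0 : c0 * w ^ g ≤ 1 := mul_le_one₀ (hE.trans hE1) hwg0.le hwg
  have hd1 : c1 * w ^ (g + 1) ≤ 1 := mul_le_one₀ hc1' hwg10.le hwg1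
  have hd00 : 0 < c0 * w ^ g := by positivity
  have hd10 : 0 ≤ c1 * w ^ (g + 1) := by positivity
  -- first factor
  have hia : 1 / a ≤ 2 ^ 26 := by
    rw [div_le_iff₀ ha0]
    have := mul_le_mul_of_nonneg_left ha (by positivity : (0 : ℝ) ≤ 2 ^ 26)
    norm_num at this ⊢
    linarith
  have hSa : ∀ S : ℝ, 0 ≤ S → S ≤ 256 → S / a ≤ 2 ^ 34 := by
    intro S h0 h1
    have h2 : S / a = S * (1 / a) := by ring
    rw [h2]
    calc S * (1 / a) ≤ 256 * 2 ^ 26 := mul_le_mul h1 hia (by positivity) (by norm_num)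
      _ = 2 ^ 34 := by norm_num
  have hA : c1 * w ^ (g + 1) * (S1 / a) / 2 + c0 * w ^ g * (S2 / a) ≤ 2 ^ 35 := by
    have h1 : c1 * w ^ (g + 1) * (S1 / a) ≤ 1 * 2 ^ 34 :=
      mul_le_mul hd1 (hSa S1 hS10 hS1) (by positivity) (by norm_num)
    have h2 : c0 * w ^ g * (S2 / a) ≤ 1 * 2 ^ 34 :=
      mul_le_mul hd0 (hSa S2 hS20 hS2) (by positivity) (by norm_num)
    norm_num at h1 h2 ⊢
    linarith
  have hA0 : 0 ≤ c1 * w ^ (g + 1) * (S1 / a) / 2 + c0 * w ^ g * (S2 / a) := by positivity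
  -- second factor
  set e : ℝ := Real.exp (-1) with he
  have he0 : 0 < e := Real.exp_pos _
  have he1 : e ≤ 1 / 2 := by
    rw [he, Real.exp_neg]
    have h1 : (2 : ℝ) ≤ Real.exp 1 := by
      have := Real.add_one_le_exp (1 : ℝ)
      linarith
    have h2 := inv_anti₀ (by norm_num : (0 : ℝ) < 2) h1
    norm_num at h2 ⊢
    exact h2
  have hr : c0 * w ^ g ≤ (e * w) ^ g := by
    rw [Real.mul_rpow he0.le hw0.le, he, ← Real.exp_mul]
    have : (-1 : ℝ) * g = -g := by ring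
    rw [this]
    exact mul_le_mul_of_nonneg_right hE hwg0.le
  have hew0 : 0 < e * w := by positivity
  have hew1 : e * w ≤ 1 := by nlinarith
  have hB : (c0 * w ^ g) ^ Ra ≤ (e * w) ^ 92 := by
    have h1 : (c0 * w ^ g) ^ Ra ≤ ((e * w) ^ g) ^ Ra :=
      Real.rpow_le_rpow hd00.le hr (by linarith)
    have h2 : ((e * w) ^ g) ^ Ra = (e * w) ^ (g * Ra) := (Real.rpow_mul hew0.le g Ra).symm
    have h3 : (e * w) ^ (g * Ra) ≤ (e * w) ^ (92 : ℝ) := by
      apply Real.rpow_le_rpow_of_exponent_ge hew0 hew1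
      nlinarith
    have h4 : (e * w) ^ (92 : ℝ) = (e * w) ^ 92 := by
      rw [← Real.rpow_natCast]
      norm_num
    rw [h2] at h1
    rw [h4] at h3
    exact h1.trans h3
  have hwξ : w * ξ ≤ 2 ^ 16 := by
    have h1 : (w * ξ) ^ 2 ≤ (2 ^ 16) ^ 2 := by
      have h2 : (w * ξ) ^ 2 = w * (64 * (1 / a)) := by
        rw [hw]
        field_simp
      rw [h2]
      calc w * (64 * (1 / a)) ≤ 1 * (64 * 2 ^ 26) :=
            mul_le_mul hw1 (mul_le_mul_of_nonneg_left hia (by norm_num)) (by positivity) (by norm_num)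
        _ = (2 ^ 16) ^ 2 := by norm_num
    exact (abs_le_of_sq_le_sq' h1 (by positivity)).2
  have hC : (e * w) ^ 92 * ξ ≤ 1 / 2 ^ 76 := by
    have h1 : (e * w) ^ 92 * ξ = e ^ 92 * (w ^ 91 * (w * ξ)) := by ring
    rw [h1]
    have h2 : e ^ 92 ≤ (1 / 2) ^ 92 := pow_le_pow_left₀ he0.le he1 92
    have h3 : w ^ 91 ≤ 1 := pow_le_one₀ hw0.le hw1
    calc e ^ 92 * (w ^ 91 * (w * ξ)) ≤ (1 / 2) ^ 92 * (1 * 2 ^ 16) :=
          mul_le_mul h2 (mul_le_mul h3 hwξ (by positivity) (by norm_num)) (by positivity) (by positivity)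
      _ = 1 / 2 ^ 76 := by norm_num
  have hB0 : 0 ≤ (c0 * w ^ g) ^ Ra := Real.rpow_nonneg hd00.le _
  have hBξ : (c0 * w ^ g) ^ Ra * ξ ≤ 1 / 2 ^ 76 :=
    (mul_le_mul_of_nonneg_right hB hξ.le).trans hC
  have hfin : (c1 * w ^ (g + 1) * (S1 / a) / 2 + c0 * w ^ g * (S2 / a)) *
      (c0 * w ^ g) ^ Ra * ξ ≤ 2 ^ 35 * (1 / 2 ^ 76) := by
    rw [mul_assoc]
    exact mul_le_mul hA hBξ (by positivity) (by positivity)
  refine hfin.trans ?_
  have h1 : 1 ≤ 2 * g * (1 + Ra) - 1 := by nlinarith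
  calc (2 : ℝ) ^ 35 * (1 / 2 ^ 76) ≤ 1 / 2 ^ 40 * 1 := by norm_num
    _ ≤ 1 / 2 ^ 40 * (2 * g * (1 + Ra) - 1) := mul_le_mul_of_nonneg_left h1 (by positivity)

/-- the numbers in `kTail` -/
theorem kTail_unfold (D : N.Tab) (c a1 a2 b1 b2 m : ℕ) (h : N.kTail D c a1 a2 b1 b2 m < 2 ^ 60) :
    ∃ xs Ra ex1 l0 l1 A B w : ℕ, xs = N.mulL a1 (m * m) ∧
      w = cond (Nat.beq c 0) (Nat.sub N.oneA (Nat.mul 2 a2)) (Nat.sub N.oneA (Nat.add a2 b2)) ∧
      Ra = Nat.div (Nat.shiftLeft w 40) a2 ∧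
      ex1 = Nat.shiftRight (D.B.gn * (N.one + Ra)) 4 ∧ 4294967296 ≤ xs ∧ N.one + 1000000 ≤ ex1 ∧
      l0 = N.lC D.B.c0 D.B.gn xs ∧ l1 = N.lC D.B.c1 (D.B.gn + 32) xs ∧
      A = Nat.succ (Nat.shiftRight (N.expUp l1 * N.kD D.I1 D.U1 (N.kS1 D) a1 b1 (m * m)) 41) +
        Nat.succ (Nat.shiftRight (N.expUp l0 * N.kD D.I2 D.U2 (N.kS2 D) a1 b1 (m * m)) 40) ∧
      B = Nat.succ (Nat.shiftRight (A * N.expUp (Nat.shiftRight (l0 * Ra) 40) * m) 43) ∧
      N.kTail D c a1 a2 b1 b2 m = Nat.succ (Nat.div (Nat.shiftLeft B 40) (Nat.sub ex1 N.one)) := by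
  unfold N.kTail at h ⊢
  simp only [frc_eq] at h ⊢
  set xs : ℕ := N.mulL a1 (Nat.mul m m) with hxs
  set w : ℕ := cond (Nat.beq c 0) (Nat.sub N.oneA (Nat.mul 2 a2)) (Nat.sub N.oneA (Nat.add a2 b2)) with hw
  set Ra : ℕ := Nat.div (Nat.shiftLeft w 40) a2 with hRa
  set ex1 : ℕ := Nat.shiftRight (Nat.mul D.B.gn (Nat.add N.one Ra)) 4 with hex
  cases hb : (cond (Nat.ble 4294967296 xs) (Nat.ble (Nat.add N.one 1000000) ex1) false) with
  | false =>
    rw [hb] at h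
    exact absurd h (by simp)
  | true =>
    have h1 : Nat.ble 4294967296 xs = true := by
      cases hc : Nat.ble 4294967296 xs with
      | false => rw [hc] at hb; exact absurd hb (by simp)
      | true => rfl
    rw [h1] at hb
    have h2 : Nat.ble (Nat.add N.one 1000000) ex1 = true := hb
    exact ⟨xs, Ra, ex1, _, _, _, _, w, rfl, rfl, rfl, rfl, Nat.le_of_ble_eq_true h1,
      Nat.le_of_ble_eq_true h2, rfl, rfl, rfl, rfl, rfl⟩

theorem fld6_lt (I k : ℕ) : N.fld6 I k < 72057594037927936 := Nat.mod_lt _ (by norm_num)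

theorem mulL_eq (a X : ℕ) : N.mulL a X = Nat.shiftRight (a * X) 6 := rfl

theorem kS1_eq (D : N.Tab) : N.kS1 D =
    Nat.add (N.fld6 D.I1 1152) (Nat.succ (Nat.div (Nat.shiftLeft D.B.c1 20) D.B.gn)) := rfl

theorem kS2_eq (D : N.Tab) : N.kS2 D =
    Nat.add (N.fld6 D.I2 1152) (Nat.succ (Nat.div (Nat.shiftLeft D.B.c2 20) D.B.gn)) := rfl

theorem sub_oneA (s : ℕ) : Nat.sub N.oneA s = 67108864 - s := rfl

theorem sub_one' (s : ℕ) : Nat.sub s N.one = s - 1099511627776 := rfl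

attribute [local irreducible] N.kS1 N.kS2 N.kD N.iV N.mulL N.lC N.expUp N.kTail N.fld6 N.oneA N.one

theorem gKT : GKT := by
  intro hEXP hPOW hKT2 D θ z hT n c t i j a1 a2 b1 b2 m hc hS hji hl ha16 ha1t hta2 hb1 hb2 ha2 hm hk
  have ha1 : 0 < a1 := lt_of_lt_of_le (by norm_num) ha16
  obtain ⟨xs, Ra, ex1, l0, l1, A, B, w, exs, ew, eRa, eex, hx1, hx2, el0, el1, eA, eB, hkT⟩ :=
    kTail_unfold D c a1 a2 b1 b2 m hk
  obtain ⟨I1, I2, hFM, hIV⟩ := hT.fm
  have ha1R : (0 : ℝ) < a1 := by exact_mod_cast ha1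
  have haR1 : 0 < aR a1 := by unfold aR; positivity
  have hti : 0 < t i := lt_of_lt_of_le haR1 ha1t
  have htj : 0 ≤ t j := hS.1 j
  have hij : i ≠ j := by rintro rfl; exact lt_irrefl _ hji
  have hsum : t i + t j ≤ 1 := by
    have h1 : t i + t j = ∑ l ∈ ({i, j} : Finset (Fin n)), t l := by
      rw [Finset.sum_pair hij]
    rw [h1, ← hS.2]
    exact Finset.sum_le_sum_of_subset_of_nonneg (Finset.subset_univ _) (fun l _ _ => hS.1 l)
  have hmR : (0 : ℝ) < m := by exact_mod_cast hm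
  set ξ : ℝ := (m : ℝ) / 8 with hξ
  have hξ0 : 0 < ξ := by positivity
  obtain ⟨hc0a, hc0b, hc1a, hc1b, -, -⟩ := hT.cp
  obtain ⟨hg1, hg2⟩ := hT.gn
  set g : ℝ := (D.B.gn : ℝ) / 32 with hg
  have hg12 : 1 / 2 ≤ g := hT.fp.g0
  have hvc0 : 0 < vR D.B.c0 := by unfold vR; have : (0 : ℝ) < D.B.c0 := by exact_mod_cast hc0a
                                  positivity
  have hvc1 : 0 ≤ vR D.B.c1 := by unfold vR; positivity
  have hvc1' : vR D.B.c1 ≤ 1 := by
    unfold vR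
    rw [div_le_one (by positivity)]
    exact_mod_cast hc1b
  -- arguments
  have haξ : ∀ a : ℕ, aR (N.mulL a (m * m)) ≤ aR a * ξ ^ 2 := by
    intro a
    have h1 : ((N.mulL a (m * m) : ℕ) : ℝ) ≤ ((a * (m * m) : ℕ) : ℝ) / 2 ^ 6 := by
      rw [mulL_eq]
      exact shr_le _ 6
    unfold aR
    rw [hξ]
    push_cast at h1
    have h2 : (a : ℝ) / 2 ^ 26 * ((m : ℝ) / 8) ^ 2 = ((a : ℝ) * (m * m) / 2 ^ 6) / 2 ^ 26 := by ring
    rw [h2]
    exact div_le_div_of_nonneg_right h1 (by positivity)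
  have hxs64 : 64 ≤ aR xs := by
    unfold aR
    rw [le_div_iff₀ (by positivity)]
    have h1 : ((4294967296 : ℕ) : ℝ) ≤ (xs : ℝ) := by exact_mod_cast hx1
    norm_num at h1 ⊢
    exact h1
  have hxsle : aR xs ≤ t i * ξ ^ 2 := by
    rw [exs]
    exact (haξ a1).trans (mul_le_mul_of_nonneg_right ha1t (by positivity))
  have h64 : 64 ≤ t i * ξ ^ 2 := hxs64.trans hxsle
  -- the constants `S`
  have hkS : ∀ (I c : ℕ), c ≤ 2 ^ 40 →
      ((Nat.add (N.fld6 I 1152) (Nat.succ (Nat.div (Nat.shiftLeft c 20) D.B.gn)) : ℕ) : ℝ) / 2 ^ 49 ≤ 256 := by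
    intro I c hc
    have h1 : N.fld6 I 1152 < 72057594037927936 := fld6_lt _ _
    have h2 : Nat.div (Nat.shiftLeft c 20) D.B.gn ≤ 2 ^ 56 := by
      have h3 : Nat.shiftLeft c 20 = c * 2 ^ 20 := Nat.shiftLeft_eq c 20
      rw [h3]
      refine Nat.div_le_of_le_mul ?_
      calc c * 2 ^ 20 ≤ 2 ^ 40 * 2 ^ 20 := Nat.mul_le_mul_right _ hc
        _ = 16 * 2 ^ 56 := by norm_num
        _ ≤ D.B.gn * 2 ^ 56 := Nat.mul_le_mul_right _ hg1
    have h4 : Nat.add (N.fld6 I 1152) (Nat.succ (Nat.div (Nat.shiftLeft c 20) D.B.gn)) ≤ 2 ^ 57 := by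
      show N.fld6 I 1152 + (Nat.div (Nat.shiftLeft c 20) D.B.gn + 1) ≤ 2 ^ 57
      omega
    rw [div_le_iff₀ (by positivity)]
    have h5 : ((Nat.add (N.fld6 I 1152) (Nat.succ (Nat.div (Nat.shiftLeft c 20) D.B.gn)) : ℕ) : ℝ)
        ≤ ((2 ^ 57 : ℕ) : ℝ) := by exact_mod_cast h4
    refine h5.trans ?_
    norm_num
  have hS1 : (N.kS1 D : ℝ) / 2 ^ 49 ≤ 256 := by rw [kS1_eq]; exact hkS D.I1 D.B.c1 hc1b
  have hS2 : (N.kS2 D : ℝ) / 2 ^ 49 ≤ 256 := by rw [kS2_eq]; exact hkS D.I2 D.B.c2 hT.cp.2.2.2.2.2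
  have hkpos : 1 / 2 ^ 40 ≤ vR (N.kTail D c a1 a2 b1 b2 m) := by
    rw [hkT]
    unfold vR
    apply div_le_div_of_nonneg_right _ (by positivity)
    push_cast
    have : (0 : ℝ) ≤ ((Nat.div (Nat.shiftLeft B 40) (Nat.sub ex1 N.one) : ℕ) : ℝ) := Nat.cast_nonneg _
    linarith
  have hSIG := Pool.Agent.Helper8.PT.gSIG
  rcases lt_or_ge (t i) (1 / 2 ^ 14) with hsm | hbig
  · -- tiny largest coordinate
    set Rr : ℝ := (1 - t i - t j) / t i with hRr
    have hRr' : 200 ≤ Rr := by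
      rw [hRr, le_div_iff₀ hti]
      have h1 : t i < 1 / 16384 := by norm_num at hsm ⊢; exact hsm
      linarith
    have hlow : 1 / 2 ^ 26 ≤ t i := by
      refine le_trans ?_ ha1t
      unfold aR
      apply div_le_div_of_nonneg_right _ (by positivity)
      exact_mod_cast ha1
    have hS10 : (0 : ℝ) ≤ (N.kS1 D : ℝ) / 2 ^ 49 := div_nonneg (Nat.cast_nonneg _) (by norm_num)
    have hS20 : (0 : ℝ) ≤ (N.kS2 D : ℝ) / 2 ^ 49 := div_nonneg (Nat.cast_nonneg _) (by norm_num)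
    have hw0 : 0 < 64 / (t i * ξ ^ 2) := by positivity
    obtain ⟨hI, hT2⟩ := hKT2 hSIG θ z _ _ _ _ _ _ _ _ _ _ I1 I2 hT.fa hT.fp hFM hvc0 hvc1 hT.gc hT.cc n t i j
      (t i) 0 ξ Rr (vR D.B.c0 * (64 / (t i * ξ ^ 2)) ^ g) (vR D.B.c1 * (64 / (t i * ξ ^ 2)) ^ (g + 1))
      ((N.kS1 D : ℝ) / 2 ^ 49 / t i) ((N.kS2 D : ℝ) / 2 ^ 49 / t i) (1 / 2 ^ 40) hS hji hl hti le_rfl le_rfl
      htj (by linarith) (by rw [hRr, div_mul_cancel₀ _ hti.ne']) hξ0 h64 le_rfl le_rfl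
      (mul_pos hvc0 (Real.rpow_pos_of_pos hw0 _))
      (Or.inl (by rw [div_mul_cancel₀ _ hti.ne'])) (Or.inl (by rw [div_mul_cancel₀ _ hti.ne']))
      (div_nonneg hS10 hti.le) (div_nonneg hS20 hti.le) (by nlinarith)
      (tiny (t i) ξ g _ _ _ _ Rr hlow hξ0 h64 hg12 hvc0 hT.gc hvc1 hvc1' hS1 hS2 hS10 hS20 hRr')
    refine ⟨hI, le_trans ?_ hT2⟩
    have h1 : 0 ≤ t i - t j := by linarith
    have h2 := mul_le_mul_of_nonneg_left hkpos h1
    linarith
  · -- the main case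
    have hD : ∀ (I U S : ℕ) (J : ℝ → ℝ), MonotoneOn J (Ici 0) → (S : ℝ) / 2 ^ 49 ≤ 256 →
        (∀ x : ℕ, (N.iV I U x : ℝ) / 2 ^ 66 ≤ J (aR x)) →
        ((S : ℝ) / 2 ^ 49 ≤ vR (N.kD I U S a1 b1 (m * m)) * t i ∨
          (aR b1 < t i ∧ (S : ℝ) / 2 ^ 49 - J (aR b1 * ξ ^ 2) ≤
            vR (N.kD I U S a1 b1 (m * m)) * (t i - aR b1))) := by
      intro I U S J hJ hSb hJV
      have hv0 : 0 ≤ vR (N.kD I U S a1 b1 (m * m)) := by unfold vR; positivity
      rcases kD_cases I U S a1 b1 (m * m) ha1 with h | h | ⟨hlt, h⟩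
      · left
        refine le_trans ?_ (mul_le_mul_of_nonneg_left ha1t hv0)
        unfold vR aR
        have h1 : (S : ℝ) / 2 ^ 49 = (S : ℝ) * 2 ^ 17 / 2 ^ 66 := by norm_num; ring
        have h2 : (N.kD I U S a1 b1 (m * m) : ℝ) / 2 ^ 40 * ((a1 : ℝ) / 2 ^ 26) =
            (N.kD I U S a1 b1 (m * m) : ℝ) * a1 / 2 ^ 66 := by norm_num; ring
        rw [h1, h2]
        exact div_le_div_of_nonneg_right h (by positivity)
      · left
        refine hSb.trans ?_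
        rw [h]
        unfold vR
        have h1 := mul_le_mul_of_nonneg_left hbig (by positivity : (0 : ℝ) ≤ ((4611686018427387904 : ℕ) : ℝ) / 2 ^ 40)
        refine le_trans ?_ h1
        norm_num
      · right
        have hlt' : aR b1 < aR a1 := by
          unfold aR
          apply div_lt_div_of_pos_right _ (by positivity)
          exact_mod_cast hlt
        refine ⟨lt_of_lt_of_le hlt' ha1t, ?_⟩
        have hb0 : 0 ≤ aR (N.mulL b1 (m * m)) := by unfold aR; positivity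
        have h1 : J (aR (N.mulL b1 (m * m))) ≤ J (aR b1 * ξ ^ 2) :=
          hJ (mem_Ici.mpr hb0) (mem_Ici.mpr (hb0.trans (haξ b1))) (haξ b1)
        have h2 := hJV (N.mulL b1 (m * m))
        have h3 : vR (N.kD I U S a1 b1 (m * m)) * (aR a1 - aR b1) ≤
            vR (N.kD I U S a1 b1 (m * m)) * (t i - aR b1) :=
          mul_le_mul_of_nonneg_left (by linarith) hv0
        refine le_trans ?_ h3
        have h4 : (S : ℝ) / 2 ^ 49 - (N.iV I U (N.mulL b1 (m * m)) : ℝ) / 2 ^ 66 ≤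
            vR (N.kD I U S a1 b1 (m * m)) * (aR a1 - aR b1) := by
          unfold vR aR
          have e1 : (S : ℝ) / 2 ^ 49 - (N.iV I U (N.mulL b1 (m * m)) : ℝ) / 2 ^ 66 =
              ((S : ℝ) * 2 ^ 17 - (N.iV I U (N.mulL b1 (m * m)) : ℝ)) / 2 ^ 66 := by norm_num; ring
          have e2 : (N.kD I U S a1 b1 (m * m) : ℝ) / 2 ^ 40 * ((a1 : ℝ) / 2 ^ 26 - (b1 : ℝ) / 2 ^ 26) =
              (N.kD I U S a1 b1 (m * m) : ℝ) * ((a1 : ℝ) - b1) / 2 ^ 66 := by norm_num; ring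
          rw [e1, e2]
          exact div_le_div_of_nonneg_right h (by positivity)
        linarith
    have hD1 := hD D.I1 D.U1 (N.kS1 D) I1 hFM.m1 hS1 (fun x => (hIV x).1)
    have hD2 := hD D.I2 D.U2 (N.kS2 D) I2 hFM.m2 hS2 (fun x => (hIV x).2)
    -- `Ra`
    have ha2R : 0 < aR a2 := lt_of_lt_of_le hti hta2
    have ha2N : (0 : ℝ) < a2 := by
      unfold aR at ha2R
      by_contra hcon
      have : (a2 : ℝ) / 2 ^ 26 ≤ 0 := div_nonpos_of_nonpos_of_nonneg (not_lt.mp hcon) (by positivity)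
      linarith
    have hRa0 : 0 ≤ vR Ra := by unfold vR; positivity
    have hwle : (w : ℝ) / 2 ^ 26 ≤ 1 - t i - t j := by
      have hwc : ∀ s : ℕ, (1 : ℝ) - (s : ℝ) / 2 ^ 26 ≤ 1 - t i - t j →
          ((Nat.sub N.oneA s : ℕ) : ℝ) / 2 ^ 26 ≤ 1 - t i - t j := by
        intro s hs
        rw [sub_oneA]
        rcases Nat.lt_or_ge 67108864 s with h1 | h1
        · rw [Nat.sub_eq_zero_of_le h1.le]
          norm_num
          linarith
        · rw [Nat.cast_sub h1]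
          refine le_trans (le_of_eq ?_) hs
          push_cast
          norm_num
          ring
      rw [ew]
      cases hcb : Nat.beq c 0 with
      | true =>
        show ((Nat.sub N.oneA (Nat.mul 2 a2) : ℕ) : ℝ) / 2 ^ 26 ≤ _
        apply hwc
        have e0 : ((Nat.mul 2 a2 : ℕ) : ℝ) = 2 * a2 := by
          show ((2 * a2 : ℕ) : ℝ) = 2 * a2
          push_cast; ring
        rw [e0]
        unfold aR at hta2
        have : 2 * (a2 : ℝ) / 2 ^ 26 = 2 * ((a2 : ℝ) / 2 ^ 26) := by ring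
        rw [this]
        linarith
      | false =>
        show ((Nat.sub N.oneA (Nat.add a2 b2) : ℕ) : ℝ) / 2 ^ 26 ≤ _
        apply hwc
        have e0 : ((Nat.add a2 b2 : ℕ) : ℝ) = a2 + b2 := by
          show ((a2 + b2 : ℕ) : ℝ) = a2 + b2
          push_cast; ring
        rw [e0]
        unfold aR at hta2 hb2
        have : ((a2 : ℝ) + b2) / 2 ^ 26 = (a2 : ℝ) / 2 ^ 26 + (b2 : ℝ) / 2 ^ 26 := by ring
        rw [this]
        linarith
    have hRati : vR Ra * t i ≤ 1 - t i - t j := by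
      have h1 : vR Ra ≤ (w : ℝ) / a2 := by
        have h2 := div_le (Nat.shiftLeft w 40) a2
        rw [shl_eq, ← eRa] at h2
        unfold vR
        rw [div_le_iff₀ (by positivity)]
        refine h2.trans (le_of_eq ?_)
        ring
      have h2 : vR Ra * t i ≤ (w : ℝ) / a2 * aR a2 :=
        mul_le_mul h1 hta2 hti.le (by positivity)
      refine h2.trans (le_trans (le_of_eq ?_) hwle)
      unfold aR
      field_simp
    -- powers
    have hcast : ((D.B.gn + 32 : ℕ) : ℝ) / 32 = g + 1 := by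
      rw [hg]
      push_cast
      ring
    have hx1' : 2 ^ 32 ≤ xs := by norm_num; exact hx1
    have hp0 := hPOW.2 D.B.c0 D.B.gn xs hc0a hc0b.le hx1'
    have hp1 := hPOW.2 D.B.c1 (D.B.gn + 32) xs hc1a hc1b hx1'
    rw [hcast, ← el1] at hp1
    rw [← el0] at hp0
    have hratio : 64 / (t i * ξ ^ 2) ≤ 64 / aR xs :=
      div_le_div_of_nonneg_left (by norm_num) (by linarith) hxsle
    have hr0 : 0 ≤ 64 / (t i * ξ ^ 2) := by positivity
    have hd0 : vR D.B.c0 * (64 / (t i * ξ ^ 2)) ^ g ≤ Real.exp (-(vR l0)) :=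
      (mul_le_mul_of_nonneg_left (Real.rpow_le_rpow hr0 hratio (by linarith)) hvc0.le).trans hp0
    have hd1 : vR D.B.c1 * (64 / (t i * ξ ^ 2)) ^ (g + 1) ≤ Real.exp (-(vR l1)) :=
      (mul_le_mul_of_nonneg_left (Real.rpow_le_rpow hr0 hratio (by linarith)) hvc1).trans hp1
    -- the exponent
    have hex1 : (ex1 : ℝ) / 2 ^ 40 ≤ 2 * g * (1 + vR Ra) := by
      have h1 := shr_le (D.B.gn * (N.one + Ra)) 4
      rw [← eex] at h1
      push_cast at h1
      have e1 : ((N.one : ℕ) : ℝ) = 2 ^ 40 := by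
        unfold N.one; norm_num
      rw [e1] at h1
      rw [div_le_iff₀ (by positivity)]
      refine h1.trans (le_of_eq ?_)
      rw [hg]
      unfold vR
      field_simp
      ring
    have hexs : ((Nat.sub ex1 N.one : ℕ) : ℝ) = (ex1 : ℝ) - 2 ^ 40 := by
      rw [sub_one', Nat.cast_sub (le_trans (by unfold N.one; omega) hx2)]
      norm_num
    have hexp : (1000000 : ℝ) ≤ (ex1 : ℝ) - 2 ^ 40 := by
      have h1 : ((N.one + 1000000 : ℕ) : ℝ) ≤ (ex1 : ℝ) := by exact_mod_cast hx2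
      unfold N.one at h1
      push_cast at h1
      have h2 : (2 : ℝ) ^ 40 = 1099511627776 := by norm_num
      rw [h2]
      linarith
    have h1lt : 1 < 2 * g * (1 + vR Ra) := by
      refine lt_of_lt_of_le ?_ hex1
      rw [lt_div_iff₀ (by positivity)]
      linarith
    -- final inequality
    have hfin : (Real.exp (-(vR l1)) * vR (N.kD D.I1 D.U1 (N.kS1 D) a1 b1 (m * m)) / 2 +
        Real.exp (-(vR l0)) * vR (N.kD D.I2 D.U2 (N.kS2 D) a1 b1 (m * m))) *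
        Real.exp (-(vR l0)) ^ (vR Ra) * ξ ≤
        vR (N.kTail D c a1 a2 b1 b2 m) * (2 * g * (1 + vR Ra) - 1) := by
      set K1 : ℕ := N.kD D.I1 D.U1 (N.kS1 D) a1 b1 (m * m) with hK1
      set K2 : ℕ := N.kD D.I2 D.U2 (N.kS2 D) a1 b1 (m * m) with hK2
      have hE1 := (hEXP l1).1
      have hE0 := (hEXP l0).1
      have hA1 : Real.exp (-(vR l1)) * vR K1 / 2 + Real.exp (-(vR l0)) * vR K2 ≤ vR A := by
        have g1 : Real.exp (-(vR l1)) * vR K1 / 2 ≤
            ((Nat.succ (Nat.shiftRight (N.expUp l1 * K1) 41) : ℕ) : ℝ) / 2 ^ 40 := by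
          have k1 := le_succ_shr (N.expUp l1 * K1) 41
          have k2 : Real.exp (-(vR l1)) * vR K1 / 2 ≤ vR (N.expUp l1) * vR K1 / 2 :=
            div_le_div_of_nonneg_right (mul_le_mul_of_nonneg_right hE1 (by unfold vR; positivity)) (by norm_num)
          refine k2.trans ?_
          rw [le_div_iff₀ (by positivity)]
          refine le_trans (le_of_eq ?_) k1
          unfold vR
          push_cast
          field_simp
        have g2 : Real.exp (-(vR l0)) * vR K2 ≤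
            ((Nat.succ (Nat.shiftRight (N.expUp l0 * K2) 40) : ℕ) : ℝ) / 2 ^ 40 := by
          have k1 := le_succ_shr (N.expUp l0 * K2) 40
          have k2 : Real.exp (-(vR l0)) * vR K2 ≤ vR (N.expUp l0) * vR K2 :=
            mul_le_mul_of_nonneg_right hE0 (by unfold vR; positivity)
          refine k2.trans ?_
          rw [le_div_iff₀ (by positivity)]
          refine le_trans (le_of_eq ?_) k1
          unfold vR
          push_cast
          field_simp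
        have e1 : vR A = ((Nat.succ (Nat.shiftRight (N.expUp l1 * K1) 41) : ℕ) : ℝ) / 2 ^ 40 +
            ((Nat.succ (Nat.shiftRight (N.expUp l0 * K2) 40) : ℕ) : ℝ) / 2 ^ 40 := by
          rw [eA]
          unfold vR
          rw [Nat.cast_add]
          ring
        rw [e1]
        linarith
      have hA2 : 0 ≤ Real.exp (-(vR l1)) * vR K1 / 2 + Real.exp (-(vR l0)) * vR K2 := by
        have k1 : 0 ≤ vR K1 := by unfold vR; positivity
        have k2 : 0 ≤ vR K2 := by unfold vR; positivity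
        positivity
      have hE2 : Real.exp (-(vR l0)) ^ (vR Ra) ≤ vR (N.expUp (Nat.shiftRight (l0 * Ra) 40)) := by
        refine le_trans ?_ (hEXP _).1
        rw [← Real.exp_mul, Real.exp_le_exp]
        have k1 := shr_le (l0 * Ra) 40
        push_cast at k1
        have k2 : vR (Nat.shiftRight (l0 * Ra) 40) ≤ vR l0 * vR Ra := by
          unfold vR
          rw [div_le_iff₀ (by positivity)]
          refine k1.trans (le_of_eq ?_)
          field_simp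
        linarith
      have hB1 : (Real.exp (-(vR l1)) * vR K1 / 2 + Real.exp (-(vR l0)) * vR K2) *
          Real.exp (-(vR l0)) ^ (vR Ra) * ξ ≤ vR B := by
        have k1 : (Real.exp (-(vR l1)) * vR K1 / 2 + Real.exp (-(vR l0)) * vR K2) *
            Real.exp (-(vR l0)) ^ (vR Ra) * ξ ≤
            vR A * vR (N.expUp (Nat.shiftRight (l0 * Ra) 40)) * ξ :=
          mul_le_mul_of_nonneg_right (mul_le_mul hA1 hE2 (by positivity) (hA2.trans hA1)) hξ0.le
        refine k1.trans ?_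
        have k2 := le_succ_shr (A * N.expUp (Nat.shiftRight (l0 * Ra) 40) * m) 43
        rw [← eB] at k2
        generalize N.expUp (Nat.shiftRight (l0 * Ra) 40) = E at k2 ⊢
        unfold vR
        rw [le_div_iff₀ (by positivity)]
        refine le_trans (le_of_eq ?_) k2
        rw [hξ]
        push_cast
        ring
      refine hB1.trans ?_
      have hT0 : 0 ≤ vR (N.kTail D c a1 a2 b1 b2 m) := by unfold vR; positivity
      have k1 : vR (N.kTail D c a1 a2 b1 b2 m) * ((ex1 : ℝ) / 2 ^ 40 - 1) ≤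
          vR (N.kTail D c a1 a2 b1 b2 m) * (2 * g * (1 + vR Ra) - 1) :=
        mul_le_mul_of_nonneg_left (by linarith) hT0
      refine le_trans ?_ k1
      have hpos : 0 < Nat.sub ex1 N.one := by
        have : (0 : ℝ) < ((Nat.sub ex1 N.one : ℕ) : ℝ) := by rw [hexs]; linarith
        exact_mod_cast this
      have k2 := le_succ_div (Nat.shiftLeft B 40) (Nat.sub ex1 N.one) hpos
      rw [← hkT, shl_eq, hexs, div_le_iff₀ (by linarith)] at k2
      unfold vR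
      rw [div_le_iff₀ (by positivity)]
      have e1 : (N.kTail D c a1 a2 b1 b2 m : ℝ) / 2 ^ 40 * ((ex1 : ℝ) / 2 ^ 40 - 1) * 2 ^ 40 =
          (N.kTail D c a1 a2 b1 b2 m : ℝ) * ((ex1 : ℝ) - 2 ^ 40) / 2 ^ 40 := by
        field_simp
      rw [e1, le_div_iff₀ (by positivity)]
      exact k2
    exact hKT2 hSIG θ z _ _ _ _ _ _ _ _ _ _ I1 I2 hT.fa hT.fp hFM hvc0 hvc1 hT.gc hT.cc n t i j
      (t i) (aR b1) ξ (vR Ra) (Real.exp (-(vR l0))) (Real.exp (-(vR l1)))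
      (vR (N.kD D.I1 D.U1 (N.kS1 D) a1 b1 (m * m))) (vR (N.kD D.I2 D.U2 (N.kS2 D) a1 b1 (m * m)))
      (vR (N.kTail D c a1 a2 b1 b2 m)) hS hji hl hti le_rfl (by unfold aR; positivity) hb1 hRa0 hRati hξ0 h64
      hd0 hd1 (Real.exp_pos _) hD1 hD2 (by unfold vR; positivity) (by unfold vR; positivity) h1lt hfin

end Pool.Agent.Helper95.PT
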